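import Pool.Agent.J4H69.K1.Stm

set_option autoImplicit false

/-!
Job DEP of project K1: `S_MAXB → S_DEP`.
-/

namespace Pool.Agent.J4H25.K1

open Filter Topology Set Metric
open Pool.Agent.J4H69.AX (HasDisc HasPiece)
open Pool.Agent.J4H69.K1

/-- growth of a polynomial in two variables -/
lemma growth (q : MvPolynomial (Fin 2) ℂ) : ∃ (C : ℝ) (d : ℕ), 0 ≤ C ∧ ∀ x y : ℂ,
    ‖MvPolynomial.eval ![x, y] q‖ ≤ C * ((1 + ‖x‖) * (1 + ‖y‖)) ^ d := by
  induction q using MvPolynomial.induction_on with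
  | C a => exact ⟨‖a‖, 0, norm_nonneg _, fun x y => by simp⟩
  | add p q hp hq =>
    obtain ⟨C₁, d₁, h1, h2⟩ := hp
    obtain ⟨C₂, d₂, h3, h4⟩ := hq
    refine ⟨C₁ + C₂, d₁ + d₂, by positivity, fun x y => ?_⟩
    have hb : 1 ≤ (1 + ‖x‖) * (1 + ‖y‖) := by
      nlinarith [norm_nonneg x, norm_nonneg y, mul_nonneg (norm_nonneg x) (norm_nonneg y)]
    rw [map_add]
    refine (norm_add_le _ _).trans ?_
    have h7 : ((1 + ‖x‖) * (1 + ‖y‖)) ^ d₁ ≤ ((1 + ‖x‖) * (1 + ‖y‖)) ^ (d₁ + d₂) :=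
      pow_le_pow_right₀ hb (by omega)
    have h8 : ((1 + ‖x‖) * (1 + ‖y‖)) ^ d₂ ≤ ((1 + ‖x‖) * (1 + ‖y‖)) ^ (d₁ + d₂) :=
      pow_le_pow_right₀ hb (by omega)
    have h5 := (h2 x y).trans (mul_le_mul_of_nonneg_left h7 h1)
    have h6 := (h4 x y).trans (mul_le_mul_of_nonneg_left h8 h3)
    rw [add_mul]
    exact add_le_add h5 h6
  | mul_X p n hp =>
    obtain ⟨C, d, h1, h2⟩ := hp
    refine ⟨C, d + 1, h1, fun x y => ?_⟩
    rw [map_mul, MvPolynomial.eval_X, norm_mul, pow_succ, ← mul_assoc]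
    refine mul_le_mul (h2 x y) ?_ (norm_nonneg _) (by positivity)
    have hx := norm_nonneg x
    have hy := norm_nonneg y
    fin_cases n
    · simp only [Fin.zero_eta, Fin.isValue, Matrix.cons_val_zero]
      nlinarith [mul_nonneg hx hy]
    · have h3 : ‖(![x, y] : Fin 2 → ℂ) 1‖ = ‖y‖ := rfl
      change ‖(![x, y] : Fin 2 → ℂ) 1‖ ≤ _
      rw [h3]
      nlinarith [mul_nonneg hx hy]

/-- the linear conditions of vanishing at the branches over `w₀` -/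
lemma loc_van {n : ℕ} {T : Set (Fin n → ℂ)} {i : Fin n} {w₀ : ℂ} (h : Loc T i w₀) :
    ∃ N : ℕ, ∀ (ι : Type) [Fintype ι] (G : ι → (Fin n → ℂ) → ℂ), (∀ a, Differentiable ℂ (G a)) →
    ∀ m : ℕ, ∃ Λ : (ι → ℂ) →ₗ[ℂ] (Fin N × Fin m → ℂ), ∀ c, Λ c = 0 → ∃ C ε : ℝ, 0 ≤ C ∧ 0 < ε ∧
      ∀ z ∈ T, ‖z i - w₀‖ < ε → ‖∑ a, c a * G a z‖ ≤ C * ‖z i - w₀‖ ^ m := by
  obtain ⟨δ, N, Φ, hδ, hΦ, hΦT, hcov⟩ := h
  refine ⟨N, fun ι _ G hG m => ?_⟩
  have han : ∀ a k, AnalyticAt ℂ (fun s => G a (Φ k s)) w₀ := by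
    intro a k
    have : DifferentiableOn ℂ (fun s => G a (Φ k s)) (ball w₀ δ) :=
      (hG a).comp_differentiableOn (hΦ k).differentiableOn
    exact this.analyticAt (isOpen_ball.mem_nhds (mem_ball_self hδ))
  refine ⟨{ toFun := fun c p => ∑ a, c a * iteratedDeriv p.2 (fun s => G a (Φ p.1 s)) w₀
            map_add' := ?_
            map_smul' := ?_ }, fun c hc => ?_⟩
  · intro c c'
    funext p
    simp only [Pi.add_apply, add_mul, Finset.sum_add_distrib]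
  · intro r c
    funext p
    simp only [Pi.smul_apply, smul_eq_mul, RingHom.id_apply, Finset.mul_sum, mul_assoc]
  have hc' : ∀ (k : Fin N) (l : Fin m), ∑ a, c a * iteratedDeriv l (fun s => G a (Φ k s)) w₀ = 0 :=
    fun k l => congrFun hc (k, l)
  have key : ∀ k : Fin N, ∀ᶠ C : ℝ in atTop, ∀ᶠ s in 𝓝 w₀,
      ‖∑ a, c a * G a (Φ k s)‖ ≤ C * ‖s - w₀‖ ^ m := by
    intro k
    have hf : AnalyticAt ℂ (fun s => ∑ a, c a * G a (Φ k s)) w₀ :=
      Finset.analyticAt_fun_sum _ (fun a _ => analyticAt_const.mul (han a k))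
    have hd : ∀ l < m, iteratedDeriv l (fun s => ∑ a, c a * G a (Φ k s)) w₀ = 0 := by
      intro l hl
      have h1 : ∀ a ∈ Finset.univ, ContDiffAt ℂ l (fun s => c a * G a (Φ k s)) w₀ :=
        fun a _ => (analyticAt_const.mul (han a k)).contDiffAt
      rw [iteratedDeriv_fun_sum h1, ← hc' k ⟨l, hl⟩]
      refine Finset.sum_congr rfl fun a _ => ?_
      exact iteratedDeriv_const_mul _ (han a k).contDiffAt
    have ho := (natCast_le_analyticOrderAt_iff_iteratedDeriv_eq_zero hf).2 hd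
    obtain ⟨g, hg, he⟩ := (natCast_le_analyticOrderAt hf).1 ho
    filter_upwards [eventually_ge_atTop (‖g w₀‖ + 1)] with C hC
    have h1 : ∀ᶠ s in 𝓝 w₀, ‖g s‖ < ‖g w₀‖ + 1 :=
      (hg.continuousAt.norm).eventually_lt_const (by linarith)
    filter_upwards [he, h1] with s h2 h3
    rw [h2, norm_smul, norm_pow, mul_comm]
    exact mul_le_mul_of_nonneg_right (h3.le.trans hC) (by positivity)
  obtain ⟨C, hC, hC0⟩ := ((eventually_all.2 key).and (eventually_ge_atTop (0 : ℝ))).exists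
  obtain ⟨ε, hε, hball⟩ := Metric.eventually_nhds_iff_ball.1 (eventually_all.2 hC)
  refine ⟨C, min ε δ, hC0, lt_min hε hδ, fun z hz hzw => ?_⟩
  have h1 : z i ∈ ball w₀ δ := by
    rw [mem_ball, dist_eq_norm]
    exact hzw.trans_le (min_le_right _ _)
  have h2 : z i ∈ ball w₀ ε := by
    rw [mem_ball, dist_eq_norm]
    exact hzw.trans_le (min_le_left _ _)
  obtain ⟨k, hk⟩ := hcov z hz h1
  have h3 := hball (z i) h2 k
  rwa [← hk] at h3

/-- a smaller ball around another centre -/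
lemma loc_shift {n : ℕ} {T : Set (Fin n → ℂ)} {i : Fin n} {w₀ : ℂ} (h : Loc T i w₀)
    {F : Set ℂ} (hF : F.Finite) : ∃ w₁, w₁ ∉ F ∧ Loc T i w₁ := by
  obtain ⟨δ, N, Φ, hδ, hΦ, hΦT, hcov⟩ := h
  obtain ⟨w₁, hw₁, hw₂⟩ : ∃ w₁ ∈ ball w₀ δ, w₁ ∉ F := by
    by_contra hcon
    push Not at hcon
    have h1 : (ball w₀ δ).Finite := hF.subset hcon
    exact (infinite_of_mem_nhds w₀ (ball_mem_nhds w₀ hδ)) h1
  have hsub : ball w₁ (δ - dist w₁ w₀) ⊆ ball w₀ δ := by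
    intro x hx
    rw [mem_ball] at hx ⊢
    linarith [dist_triangle x w₁ w₀]
  refine ⟨w₁, hw₂, δ - dist w₁ w₀, N, Φ, ?_, fun k => (hΦ k).mono hsub,
    fun k s hs => hΦT k s (hsub hs), fun z hz hzi => hcov z hz (hsub hzi)⟩
  rw [mem_ball] at hw₁
  linarith

/-- separation from the value `s₁` of the coordinate `j` over `w₀` -/
lemma loc_sep {n : ℕ} {T : Set (Fin n → ℂ)} {i : Fin n} {w₀ : ℂ} (h : Loc T i w₀) (j : Fin n) :
    ∃ F : Set ℂ, F.Finite ∧ ∀ s₁ ∉ F, ∃ ε : ℝ, 0 < ε ∧ ∀ z ∈ T, ‖z i - w₀‖ < ε → ε ≤ ‖z j - s₁‖ := by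
  obtain ⟨δ, N, Φ, hδ, hΦ, hΦT, hcov⟩ := h
  refine ⟨range fun k => Φ k w₀ j, finite_range _, fun s₁ hs₁ => ?_⟩
  have key : ∀ k : Fin N, ∀ᶠ ε : ℝ in 𝓝[>] 0, ∀ s, ‖s - w₀‖ < ε → ε ≤ ‖Φ k s j - s₁‖ := by
    intro k
    have h0 : 0 < ‖Φ k w₀ j - s₁‖ := by
      rw [norm_pos_iff, sub_ne_zero]
      exact fun h => hs₁ ⟨k, h⟩
    have hcont : ContinuousAt (fun s => ‖Φ k s j - s₁‖) w₀ := by
      have h1 : ContinuousAt (Φ k) w₀ := (hΦ k w₀ (mem_ball_self hδ)).continuousAt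
      exact (((continuousAt_pi.1 h1) j).sub continuousAt_const).norm
    have h2 : ∀ᶠ s in 𝓝 w₀, ‖Φ k w₀ j - s₁‖ / 2 < ‖Φ k s j - s₁‖ :=
      hcont.eventually_const_lt (by linarith)
    obtain ⟨r, hr, hball⟩ := Metric.eventually_nhds_iff_ball.1 h2
    have h3 : ∀ᶠ ε : ℝ in 𝓝[>] 0, ε < r := eventually_nhdsWithin_of_eventually_nhds
      (eventually_lt_nhds hr)
    have h4 : ∀ᶠ ε : ℝ in 𝓝[>] 0, ε < ‖Φ k w₀ j - s₁‖ / 2 := eventually_nhdsWithin_of_eventually_nhds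
      (eventually_lt_nhds (by linarith))
    filter_upwards [h3, h4] with ε h5 h6 s hs
    have h7 := hball s (by rw [mem_ball, dist_eq_norm]; linarith)
    linarith
  have h3 : ∀ᶠ ε : ℝ in 𝓝[>] 0, ε < δ := eventually_nhdsWithin_of_eventually_nhds
    (eventually_lt_nhds hδ)
  obtain ⟨ε, ⟨h1, h2⟩, h4⟩ := (((eventually_all.2 key).and h3).and self_mem_nhdsWithin).exists
  refine ⟨ε, h4, fun z hz hzw => ?_⟩
  obtain ⟨k, hk⟩ := hcov z hz (by rw [mem_ball, dist_eq_norm]; linarith)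
  have h5 := h1 k (z i) hzw
  rwa [← hk] at h5

/-- the leading coefficient is small where `z k` is large -/
lemma lead_bound (Q : Polynomial (MvPolynomial (Fin 2) ℂ)) (hn : Q.natDegree ≠ 0) (L : ℝ) :
    ∃ C : ℝ, 0 ≤ C ∧ ∀ x y w : ℂ, ‖x‖ ≤ L → ‖y‖ ≤ L → 1 ≤ ‖w‖ →
      (Q.map (MvPolynomial.eval ![x, y])).eval w = 0 →
      ‖MvPolynomial.eval ![x, y] Q.leadingCoeff‖ * ‖w‖ ≤ C := by
  choose C d hC hCd using fun l => growth (Q.coeff l)
  refine ⟨∑ l ∈ Finset.range Q.natDegree, C l * ((1 + |L|) * (1 + |L|)) ^ d l,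
    Finset.sum_nonneg fun l _ => mul_nonneg (hC l) (by positivity), fun x y w hx hy hw h0 => ?_⟩
  obtain ⟨m, hm⟩ := Nat.exists_eq_succ_of_ne_zero hn
  rw [Polynomial.eval_map, Polynomial.eval₂_eq_sum_range, Finset.sum_range_succ] at h0
  have h1 : MvPolynomial.eval ![x, y] Q.leadingCoeff * w ^ Q.natDegree =
      - ∑ l ∈ Finset.range Q.natDegree, MvPolynomial.eval ![x, y] (Q.coeff l) * w ^ l := by
    rw [Polynomial.leadingCoeff]
    linear_combination h0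
  have h2 : ‖MvPolynomial.eval ![x, y] Q.leadingCoeff‖ * ‖w‖ ^ Q.natDegree ≤
      (∑ l ∈ Finset.range Q.natDegree, C l * ((1 + |L|) * (1 + |L|)) ^ d l) * ‖w‖ ^ m := by
    rw [← norm_pow, ← norm_mul, h1, norm_neg, Finset.sum_mul]
    refine (norm_sum_le _ _).trans (Finset.sum_le_sum fun l hl => ?_)
    rw [norm_mul, norm_pow]
    have hl' : l ≤ m := by
      have := Finset.mem_range.1 hl
      omega
    refine mul_le_mul ((hCd l x y).trans ?_) (pow_le_pow_right₀ hw hl') (by positivity)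
      (mul_nonneg (hC l) (by positivity))
    refine mul_le_mul_of_nonneg_left (pow_le_pow_left₀ (by positivity) ?_ _) (hC l)
    have h3 : ‖x‖ ≤ |L| := hx.trans (le_abs_self _)
    have h4 : ‖y‖ ≤ |L| := hy.trans (le_abs_self _)
    gcongr
  rw [hm, pow_succ', ← mul_assoc] at h2
  have hpos : 0 < ‖w‖ ^ m := by positivity
  refine le_of_mul_le_mul_right ?_ hpos
  rw [hm]
  exact h2

lemma disc_of_piece {n : ℕ} {T : Set (Fin n → ℂ)} {x : Fin n → ℂ} (h : HasPiece 0 T x)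
    {O : Set (Fin n → ℂ)} (hO : O ∈ 𝓝 x) : HasDisc (T ∩ O) x := by
  obtain ⟨φ, h1, h2, h3, h4⟩ := h
  set c : ℂ →L[ℂ] (Fin (0 + 1) → ℂ) := ContinuousLinearMap.pi fun _ => ContinuousLinearMap.id ℂ ℂ
    with hc
  have hc0 : c 0 = 0 := map_zero c
  have hct : Tendsto c (𝓝 0) (𝓝 0) := by
    have := c.continuous.tendsto 0
    rwa [hc0] at this
  have hφ : AnalyticAt ℂ φ (c 0) := by rw [hc0]; exact h1
  have hcomp : AnalyticAt ℂ (fun s => φ (c s)) 0 := hφ.comp (c.analyticAt 0)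
  refine ⟨fun s => φ (c s), hcomp, ?_, ?_, ?_⟩
  · simp only [hc0, h2]
  · have h5 : ∀ᶠ s in 𝓝 (0 : ℂ), φ (c s) ∈ O := by
      have := hcomp.continuousAt.tendsto
      simp only [hc0, h2] at this
      exact this.eventually hO
    filter_upwards [hct.eventually h4, h5] with s h6 h7
    exact ⟨h6, h7⟩
  · intro hcon
    have h5 : HasDerivAt (fun s => φ (c s)) (fderiv ℂ φ 0 (c 1)) 0 := by
      have h6 : HasFDerivAt φ (fderiv ℂ φ 0) (c 0) := by
        rw [hc0]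
        exact h1.differentiableAt.hasFDerivAt
      exact (h6.comp (0 : ℂ) c.hasFDerivAt).hasDerivAt
    have h6 : HasDerivAt (fun s => φ (c s)) 0 0 :=
      (hasDerivAt_const (0 : ℂ) x).congr_of_eventuallyEq hcon
    have h7 := h5.unique h6
    have h8 : c 1 = 0 := h3 (by rw [h7, map_zero])
    have h9 := congrFun h8 0
    simp [hc] at h9

lemma ev_diff {n : ℕ} (i j : Fin n) (q : MvPolynomial (Fin 2) ℂ) :
    Differentiable ℂ (fun z : Fin n → ℂ => MvPolynomial.eval ![z i, z j] q) := by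
  induction q using MvPolynomial.induction_on with
  | C a => simp
  | add p q hp hq =>
    simp only [map_add]
    exact hp.add hq
  | mul_X p l hp =>
    simp only [map_mul, MvPolynomial.eval_X]
    refine hp.mul ?_
    fin_cases l
    · exact differentiable_apply i
    · exact differentiable_apply j

/-- a polynomial with given coefficients -/
lemma pol_ne {D : ℕ} {c : Fin (D + 1) × Fin (D + 1) → ℂ} (hc : c ≠ 0) :
    (∑ a, MvPolynomial.C (c a) * (MvPolynomial.X 0 ^ (a.1 : ℕ) * MvPolynomial.X 1 ^ (a.2 : ℕ)) :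
      MvPolynomial (Fin 2) ℂ) ≠ 0 := by
  intro h0
  apply hc
  funext b
  have h1 : ∀ a : Fin (D + 1) × Fin (D + 1), (MvPolynomial.C (c a) *
      (MvPolynomial.X 0 ^ (a.1 : ℕ) * MvPolynomial.X 1 ^ (a.2 : ℕ)) : MvPolynomial (Fin 2) ℂ) =
      MvPolynomial.monomial (Finsupp.single 0 (a.1 : ℕ) + Finsupp.single 1 (a.2 : ℕ)) (c a) := by
    intro a
    rw [MvPolynomial.X_pow_eq_monomial, MvPolynomial.X_pow_eq_monomial, MvPolynomial.monomial_mul,
      MvPolynomial.C_mul_monomial, mul_one, mul_one]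
  have h2 := congrArg (MvPolynomial.coeff (Finsupp.single 0 (b.1 : ℕ) + Finsupp.single 1 (b.2 : ℕ)))
    h0
  simp only [h1, MvPolynomial.coeff_sum, MvPolynomial.coeff_monomial, MvPolynomial.coeff_zero] at h2
  rw [Finset.sum_eq_single b] at h2
  · simpa using h2
  · intro a _ hab
    rw [if_neg]
    intro h3
    apply hab
    have h4 := DFunLike.congr_fun h3 0
    have h5 := DFunLike.congr_fun h3 1
    simp at h4 h5
    exact Prod.ext (Fin.ext h4) (Fin.ext h5)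
  · intro h3
    exact absurd (Finset.mem_univ b) h3

lemma far {ε : ℝ} (hε : 0 < ε) (x w : ℂ) (h : ε ≤ ‖x - w‖) :
    1 + ‖x‖ ≤ ((1 + ‖w‖) / ε + 1) * ‖x - w‖ := by
  have h1 : ‖x‖ ≤ ‖w‖ + ‖x - w‖ := by
    have := norm_add_le w (x - w)
    rwa [add_sub_cancel] at this
  have h2 : 1 + ‖w‖ ≤ (1 + ‖w‖) / ε * ‖x - w‖ := by
    rw [div_mul_eq_mul_div, le_div_iff₀ hε]
    exact mul_le_mul_of_nonneg_left h (by positivity)
  linarith

lemma tri : ∀ i j k : Fin 3, i ≠ j → i ≠ k → j ≠ k → ∀ l : Fin 3, l = i ∨ l = j ∨ l = k := by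
  decide

/-- the decay at infinity away from the poles -/
lemma decay {T : Set (Fin 3 → ℂ)} {i j k : Fin 3} (hij : i ≠ j) (hik : i ≠ k) (hjk : j ≠ k)
    {Q : Polynomial (MvPolynomial (Fin 2) ℂ)} (hn : Q.natDegree ≠ 0)
    (hzero : ∀ z ∈ T, (Q.map (MvPolynomial.eval ![z i, z j])).eval (z k) = 0)
    {P : MvPolynomial (Fin 2) ℂ} {w s : ℂ} {K S : ℝ} {M D : ℕ} (hK : 0 ≤ K) (hS : 0 ≤ S)
    (hP : ∀ x y : ℂ, ‖MvPolynomial.eval ![x, y] P‖ ≤ S * ((1 + ‖x‖) * (1 + ‖y‖)) ^ D)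
    (hqP : ∀ x y : ℂ, ‖MvPolynomial.eval ![x, y] Q.leadingCoeff * MvPolynomial.eval ![x, y] P‖ ≤
      K * ((1 + ‖x‖) * (1 + ‖y‖)) ^ M) {ε : ℝ} (hε : 0 < ε) {η : ℝ} (hη : 0 < η) :
    ∃ R, ∀ z ∈ T, ε ≤ ‖z i - w‖ → ε ≤ ‖z j - s‖ → R ≤ ‖z‖ →
      ‖MvPolynomial.eval ![z i, z j] Q.leadingCoeff * MvPolynomial.eval ![z i, z j] P /
        ((z i - w) * (z j - s)) ^ (M + 1)‖ ≤ η := by
  set A : ℝ := ((1 + ‖w‖) / ε + 1) * ((1 + ‖s‖) / ε + 1) with hA
  have hA0 : 0 ≤ A := by positivity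
  set L : ℝ := ‖w‖ + ‖s‖ + K * A ^ M / (η * ε) with hL
  have hL0 : 0 ≤ L := by positivity
  obtain ⟨C, hC, hCb⟩ := lead_bound Q hn L
  set R : ℝ := max (L + 1) (C * (S * ((1 + L) * (1 + L)) ^ D) / (ε * ε) ^ (M + 1) / η) with hR
  have hR1 : L + 1 ≤ R := le_max_left _ _
  have hR0 : 0 < R := by linarith
  refine ⟨R, fun z hz h1 h2 h3 => ?_⟩
  set X := ‖z i - w‖ with hX
  set Y := ‖z j - s‖ with hY
  have hX0 : 0 < X := hε.trans_le h1
  have hY0 : 0 < Y := hε.trans_le h2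
  rw [norm_div, norm_pow, norm_mul (z i - w), ← hX, ← hY]
  have hbig : K * A ^ M / η ≤ X * Y → ‖MvPolynomial.eval ![z i, z j] Q.leadingCoeff *
      MvPolynomial.eval ![z i, z j] P‖ / (X * Y) ^ (M + 1) ≤ η := by
    intro h4
    rw [div_le_iff₀ (by positivity), pow_succ]
    have h5 : (1 + ‖z i‖) * (1 + ‖z j‖) ≤ A * (X * Y) := by
      have h6 := far hε (z i) w h1
      have h7 := far hε (z j) s h2
      calc _ ≤ (((1 + ‖w‖) / ε + 1) * X) * (((1 + ‖s‖) / ε + 1) * Y) :=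
            mul_le_mul h6 h7 (by positivity) (by positivity)
        _ = A * (X * Y) := by rw [hA]; ring
    have h6 : K * A ^ M ≤ η * (X * Y) := by
      rw [div_le_iff₀ hη] at h4
      linarith
    calc _ ≤ K * ((1 + ‖z i‖) * (1 + ‖z j‖)) ^ M := hqP _ _
      _ ≤ K * (A * (X * Y)) ^ M := by gcongr
      _ = (K * A ^ M) * (X * Y) ^ M := by rw [mul_pow]; ring
      _ ≤ (η * (X * Y)) * (X * Y) ^ M := by gcongr
      _ = _ := by ring
  by_cases hi : ‖z i‖ ≤ L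
  · by_cases hj : ‖z j‖ ≤ L
    · -- the third coordinate is large
      have h4 : R ≤ ‖z k‖ := by
        by_contra hcon
        push Not at hcon
        have h5 : ‖z‖ < R := by
          rw [pi_norm_lt_iff hR0]
          intro l
          rcases tri i j k hij hik hjk l with rfl | rfl | rfl
          · linarith
          · linarith
          · exact hcon
        linarith
      have h5 : 1 ≤ ‖z k‖ := by linarith
      have h6 := hCb (z i) (z j) (z k) hi hj h5 (hzero z hz)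
      have h7 : ‖MvPolynomial.eval ![z i, z j] P‖ ≤ S * ((1 + L) * (1 + L)) ^ D := by
        refine (hP _ _).trans ?_
        gcongr
      have h8 : C * (S * ((1 + L) * (1 + L)) ^ D) / (ε * ε) ^ (M + 1) / η ≤ ‖z k‖ :=
        (le_max_right _ _).trans h4
      rw [div_le_iff₀ hη, div_le_iff₀ (by positivity)] at h8
      rw [norm_mul, div_le_iff₀ (by positivity)]
      have h9 : (ε * ε) ^ (M + 1) ≤ (X * Y) ^ (M + 1) := by gcongr
      have hk0 : 0 < ‖z k‖ := by linarith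
      refine le_of_mul_le_mul_right ?_ hk0
      calc ‖MvPolynomial.eval ![z i, z j] Q.leadingCoeff‖ * ‖MvPolynomial.eval ![z i, z j] P‖ * ‖z k‖
          = (‖MvPolynomial.eval ![z i, z j] Q.leadingCoeff‖ * ‖z k‖) *
            ‖MvPolynomial.eval ![z i, z j] P‖ := by ring
        _ ≤ C * (S * ((1 + L) * (1 + L)) ^ D) := mul_le_mul h6 h7 (norm_nonneg _) hC
        _ ≤ ‖z k‖ * η * (ε * ε) ^ (M + 1) := h8
        _ ≤ ‖z k‖ * η * (X * Y) ^ (M + 1) := by gcongr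
        _ = _ := by ring
    · push Not at hj
      apply hbig
      have h4 : K * A ^ M / (η * ε) ≤ Y := by
        have h5 : ‖z j‖ ≤ Y + ‖s‖ := by
          have := norm_add_le (z j - s) s
          rwa [sub_add_cancel] at this
        have := norm_nonneg w
        linarith
      calc K * A ^ M / η = ε * (K * A ^ M / (η * ε)) := by field_simp
        _ ≤ X * Y := mul_le_mul h1 h4 (by positivity) hX0.le
  · push Not at hi
    apply hbig
    have h4 : K * A ^ M / (η * ε) ≤ X := by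
      have h5 : ‖z i‖ ≤ X + ‖w‖ := by
        have := norm_add_le (z i - w) w
        rwa [sub_add_cancel] at this
      have := norm_nonneg s
      linarith
    calc K * A ^ M / η = (K * A ^ M / (η * ε)) * ε := by field_simp
      _ ≤ X * Y := mul_le_mul h4 h2 hε.le hX0.le

theorem t_DEP : S_MAXB → S_DEP := by
  intro hmax T i j k hij hik hjk hT w₀ s₀ hLi hLj Q hQ hzero
  by_cases hn : Q.natDegree = 0
  · refine ⟨Q.leadingCoeff, Polynomial.leadingCoeff_ne_zero.2 hQ, fun z hz => ?_⟩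
    have h1 := hzero z hz
    rw [Polynomial.eq_C_of_natDegree_eq_zero hn, Polynomial.map_C, Polynomial.eval_C] at h1
    rw [Polynomial.leadingCoeff, hn]
    exact h1
  obtain ⟨F, hF, hsep⟩ := loc_sep hLi j
  obtain ⟨s₁, hs₁, hLj'⟩ := loc_shift hLj hF
  obtain ⟨ε₀, hε₀, hsep⟩ := hsep s₁ hs₁
  have hq0 : Q.leadingCoeff ≠ 0 := Polynomial.leadingCoeff_ne_zero.2 hQ
  obtain ⟨Cq, d, hCq, hgr⟩ := growth Q.leadingCoeff
  obtain ⟨N, hN⟩ := loc_van hLi
  obtain ⟨N', hN'⟩ := loc_van hLj'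
  set D := (N + N') * (d + 3) with hD
  set M := D + d with hM
  set G : Fin (D + 1) × Fin (D + 1) → (Fin 3 → ℂ) → ℂ := fun a z =>
    MvPolynomial.eval ![z i, z j] Q.leadingCoeff * (z i ^ (a.1 : ℕ) * z j ^ (a.2 : ℕ)) with hG
  have hGd : ∀ a, Differentiable ℂ (G a) := by
    intro a
    exact (ev_diff i j _).mul (((differentiable_apply i).pow _).mul ((differentiable_apply j).pow _))
  obtain ⟨Λ, hΛ⟩ := hN _ G hGd (M + 2)
  obtain ⟨Λ', hΛ'⟩ := hN' _ G hGd (M + 2)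
  have hker : LinearMap.ker (Λ.prod Λ') ≠ ⊥ := by
    apply LinearMap.ker_ne_bot_of_finrank_lt
    rw [Module.finrank_prod, Module.finrank_fintype_fun_eq_card, Module.finrank_fintype_fun_eq_card,
      Module.finrank_fintype_fun_eq_card, Fintype.card_prod, Fintype.card_prod, Fintype.card_prod,
      Fintype.card_fin, Fintype.card_fin, Fintype.card_fin, Fintype.card_fin]
    have h1 : N * (M + 2) + N' * (M + 2) = (N + N') * (D + d + 2) := by rw [hM]; ring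
    rw [h1, hD]
    generalize N + N' = m
    nlinarith [Nat.zero_le m, Nat.zero_le d, Nat.zero_le (m * d), Nat.zero_le (m * m * d),
      Nat.zero_le (m * m)]
  obtain ⟨c, hc, hc0⟩ := (Submodule.ne_bot_iff _).1 hker
  have hc2 : Λ c = 0 ∧ Λ' c = 0 := by
    rw [LinearMap.mem_ker, LinearMap.prod_apply] at hc
    exact Prod.mk.inj hc
  obtain ⟨C₁, ε₁, hC₁, hε₁, hb₁⟩ := hΛ c hc2.1
  obtain ⟨C₂, ε₂, hC₂, hε₂, hb₂⟩ := hΛ' c hc2.2
  set P : MvPolynomial (Fin 2) ℂ := ∑ a : Fin (D + 1) × Fin (D + 1), MvPolynomial.C (c a) *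
    (MvPolynomial.X 0 ^ (a.1 : ℕ) * MvPolynomial.X 1 ^ (a.2 : ℕ)) with hP
  have hP0 : P ≠ 0 := pol_ne hc0
  have hPev : ∀ x y : ℂ, MvPolynomial.eval ![x, y] P =
      ∑ a : Fin (D + 1) × Fin (D + 1), c a * (x ^ (a.1 : ℕ) * y ^ (a.2 : ℕ)) := by
    intro x y
    rw [hP, map_sum]
    refine Finset.sum_congr rfl fun a _ => ?_
    rw [map_mul, map_mul, map_pow, map_pow, MvPolynomial.eval_C, MvPolynomial.eval_X,
      MvPolynomial.eval_X]
    rfl
  set S : ℝ := ∑ a : Fin (D + 1) × Fin (D + 1), ‖c a‖ with hS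
  have hS0 : 0 ≤ S := Finset.sum_nonneg fun _ _ => norm_nonneg _
  have hPb : ∀ x y : ℂ, ‖MvPolynomial.eval ![x, y] P‖ ≤ S * ((1 + ‖x‖) * (1 + ‖y‖)) ^ D := by
    intro x y
    rw [hPev, hS, Finset.sum_mul]
    refine (norm_sum_le _ _).trans (Finset.sum_le_sum fun a _ => ?_)
    rw [norm_mul, norm_mul, norm_pow, norm_pow, mul_pow]
    have h1 : ∀ (u : ℂ) (b : Fin (D + 1)), ‖u‖ ^ (b : ℕ) ≤ (1 + ‖u‖) ^ D := by
      intro u b
      have hu := norm_nonneg u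
      calc ‖u‖ ^ (b : ℕ) ≤ (1 + ‖u‖) ^ (b : ℕ) := pow_le_pow_left₀ hu (by linarith) _
        _ ≤ (1 + ‖u‖) ^ D := pow_le_pow_right₀ (by linarith) (Nat.lt_succ_iff.1 b.2)
    exact mul_le_mul_of_nonneg_left (mul_le_mul (h1 x a.1) (h1 y a.2) (by positivity)
      (by positivity)) (norm_nonneg _)
  have hqP : ∀ x y : ℂ, ‖MvPolynomial.eval ![x, y] Q.leadingCoeff *
      MvPolynomial.eval ![x, y] P‖ ≤ (Cq * S) * ((1 + ‖x‖) * (1 + ‖y‖)) ^ M := by
    intro x y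
    rw [norm_mul]
    calc _ ≤ (Cq * ((1 + ‖x‖) * (1 + ‖y‖)) ^ d) * (S * ((1 + ‖x‖) * (1 + ‖y‖)) ^ D) :=
          mul_le_mul (hgr x y) (hPb x y) (norm_nonneg _) (by positivity)
      _ = _ := by rw [hM, pow_add]; ring
  have hW : ∀ z : Fin 3 → ℂ, MvPolynomial.eval ![z i, z j] Q.leadingCoeff *
      MvPolynomial.eval ![z i, z j] P = ∑ a, c a * G a z := by
    intro z
    rw [hPev, Finset.mul_sum]
    refine Finset.sum_congr rfl fun a _ => ?_
    rw [hG]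
    ring
  set W : (Fin 3 → ℂ) → ℂ := fun z => MvPolynomial.eval ![z i, z j] Q.leadingCoeff *
      MvPolynomial.eval ![z i, z j] P / ((z i - w₀) * (z j - s₁)) ^ (M + 1) with hWdef
  obtain ⟨hTc, hTp, B, hB, hTd⟩ := hT
  -- the bound
  have main : ∀ ε : ℝ, 0 < ε → ε < ε₀ → ε < ε₁ → ε < ε₂ → ∀ z ∈ T, ε ≤ ‖z i - w₀‖ →
      ε ≤ ‖z j - s₁‖ → ‖W z‖ ≤ (C₁ + C₂) / ε₀ ^ (M + 1) * ε := by
    intro ε hε h0 h1 h2 z hz hzi hzj
    have hci : Continuous fun z : Fin 3 → ℂ => ‖z i - w₀‖ :=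
      ((continuous_apply i).sub continuous_const).norm
    have hcj : Continuous fun z : Fin 3 → ℂ => ‖z j - s₁‖ :=
      ((continuous_apply j).sub continuous_const).norm
    have hnear : ∀ x : Fin 3 → ℂ, x ∈ T ∩ {z | ε ≤ ‖z i - w₀‖ ∧ ε ≤ ‖z j - s₁‖} →
        x ∉ {z : Fin 3 → ℂ | ‖z i - w₀‖ = ε ∨ ‖z j - s₁‖ = ε} →
        {z : Fin 3 → ℂ | ε ≤ ‖z i - w₀‖ ∧ ε ≤ ‖z j - s₁‖} ∈ 𝓝 x := by
      intro x hx hxE
      have h3 : ε < ‖x i - w₀‖ := lt_of_le_of_ne hx.2.1 fun h => hxE (Or.inl h.symm)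
      have h4 : ε < ‖x j - s₁‖ := lt_of_le_of_ne hx.2.2 fun h => hxE (Or.inr h.symm)
      have h5 : ∀ᶠ y in 𝓝 x, ε < ‖y i - w₀‖ := hci.continuousAt.eventually_const_lt h3
      have h6 : ∀ᶠ y in 𝓝 x, ε < ‖y j - s₁‖ := hcj.continuousAt.eventually_const_lt h4
      filter_upwards [h5, h6] with y h7 h8
      exact ⟨h7.le, h8.le⟩
    refine hmax 3 (T ∩ {z | ε ≤ ‖z i - w₀‖ ∧ ε ≤ ‖z j - s₁‖}) B
      {z | ‖z i - w₀‖ = ε ∨ ‖z j - s₁‖ = ε} {z | z i - w₀ ≠ 0 ∧ z j - s₁ ≠ 0} ?_ ?_ ?_ ?_ hB ?_ ?_ W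
      ?_ ?_ _ (by positivity) ?_ z ⟨hz, hzi, hzj⟩
    · exact hTc.inter ((isClosed_le continuous_const hci).inter (isClosed_le continuous_const hcj))
    · exact ((isOpen_ne_fun ((continuous_apply i).sub continuous_const) continuous_const)).inter
        ((isOpen_ne_fun ((continuous_apply j).sub continuous_const) continuous_const))
    · rintro x ⟨-, h3, h4⟩
      exact ⟨norm_pos_iff.1 (hε.trans_le h3), norm_pos_iff.1 (hε.trans_le h4)⟩
    · exact (isClosed_eq hci continuous_const).union (isClosed_eq hcj continuous_const)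
    · intro x hx hxE
      have h3 := hTp x hx.1
      rw [mem_closure_iff_nhds] at h3 ⊢
      intro V hV
      obtain ⟨y, ⟨hy1, hy2⟩, hy3, hy4⟩ := h3 _ (inter_mem hV (hnear x hx hxE))
      exact ⟨y, hy1, ⟨hy3, hy2⟩, hy4⟩
    · intro x hx hxB hxE
      exact disc_of_piece (hTd x hx.1 hxB) (hnear x hx hxE)
    · intro x hx
      have h3 : DifferentiableAt ℂ W x := by
        have a1 : DifferentiableAt ℂ (fun z : Fin 3 → ℂ => MvPolynomial.eval ![z i, z j]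
            Q.leadingCoeff * MvPolynomial.eval ![z i, z j] P) x :=
          ((ev_diff i j Q.leadingCoeff) x).mul ((ev_diff i j P) x)
        have a2 : DifferentiableAt ℂ (fun z : Fin 3 → ℂ => ((z i - w₀) * (z j - s₁)) ^ (M + 1)) x :=
          ((((differentiable_apply i) x).sub_const w₀).mul
            (((differentiable_apply j) x).sub_const s₁)).pow (M + 1)
        have a3 : ((x i - w₀) * (x j - s₁)) ^ (M + 1) ≠ 0 := pow_ne_zero _ (mul_ne_zero hx.1 hx.2)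
        exact (a1.mul (a2.inv a3)).congr_of_eventuallyEq
          (Eventually.of_forall fun z => div_eq_mul_inv _ _)
      exact h3.differentiableWithinAt
    · intro η hη
      obtain ⟨R, hR⟩ := decay hij hik hjk hn hzero (w := w₀) (s := s₁) (mul_nonneg hCq hS0) hS0 hPb
        hqP hε hη
      exact ⟨R, fun x hx hxR => hR x hx.1 hx.2.1 hx.2.2 hxR⟩
    · intro x hx hxE
      have hnum : MvPolynomial.eval ![x i, x j] Q.leadingCoeff *
          MvPolynomial.eval ![x i, x j] P = ∑ a, c a * G a x := hW x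
      have h3 : ‖W x‖ = ‖∑ a, c a * G a x‖ / (‖x i - w₀‖ * ‖x j - s₁‖) ^ (M + 1) := by
        rw [hWdef]
        simp only
        rw [hnum, norm_div, norm_pow, norm_mul]
      rw [h3]
      rcases hxE with h4 | h4
      · have h5 := hb₁ x hx.1 (by rw [h4]; exact h1)
        have h6 := hsep x hx.1 (by rw [h4]; exact h0)
        rw [h4] at h5 ⊢
        have hp : 0 < ‖x j - s₁‖ := hε₀.trans_le h6
        rw [div_le_iff₀ (by positivity)]
        calc _ ≤ C₁ * ε ^ (M + 2) := h5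
          _ ≤ (C₁ + C₂) * ε ^ (M + 2) := by gcongr; linarith
          _ = (C₁ + C₂) / ε₀ ^ (M + 1) * ε * (ε * ε₀) ^ (M + 1) := by
            field_simp
            rw [mul_pow]
            ring
          _ ≤ _ := by gcongr
      · have h5 := hb₂ x hx.1 (by rw [h4]; exact h2)
        have h6 : ε₀ ≤ ‖x i - w₀‖ := by
          by_contra hcon
          push Not at hcon
          have := hsep x hx.1 hcon
          linarith
        rw [h4] at h5 ⊢
        have hp : 0 < ‖x i - w₀‖ := hε₀.trans_le h6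
        rw [div_le_iff₀ (by positivity)]
        calc _ ≤ C₂ * ε ^ (M + 2) := h5
          _ ≤ (C₁ + C₂) * ε ^ (M + 2) := by gcongr; linarith
          _ = (C₁ + C₂) / ε₀ ^ (M + 1) * ε * (ε₀ * ε) ^ (M + 1) := by
            field_simp
            rw [mul_pow]
            ring
          _ ≤ _ := by gcongr
  have hvan : ∀ z ∈ T, z i - w₀ ≠ 0 → z j - s₁ ≠ 0 → MvPolynomial.eval ![z i, z j] Q.leadingCoeff *
      MvPolynomial.eval ![z i, z j] P = 0 := by
    intro z hz h1 h2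
    have h3 : ∀ᶠ ε : ℝ in 𝓝[>] 0, ‖W z‖ ≤ (C₁ + C₂) / ε₀ ^ (M + 1) * ε := by
      have e0 : ∀ᶠ ε : ℝ in 𝓝[>] 0, ε < ε₀ :=
        eventually_nhdsWithin_of_eventually_nhds (eventually_lt_nhds hε₀)
      have e1 : ∀ᶠ ε : ℝ in 𝓝[>] 0, ε < ε₁ :=
        eventually_nhdsWithin_of_eventually_nhds (eventually_lt_nhds hε₁)
      have e2 : ∀ᶠ ε : ℝ in 𝓝[>] 0, ε < ε₂ :=
        eventually_nhdsWithin_of_eventually_nhds (eventually_lt_nhds hε₂)
      have e3 : ∀ᶠ ε : ℝ in 𝓝[>] 0, ε < ‖z i - w₀‖ :=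
        eventually_nhdsWithin_of_eventually_nhds (eventually_lt_nhds (norm_pos_iff.2 h1))
      have e4 : ∀ᶠ ε : ℝ in 𝓝[>] 0, ε < ‖z j - s₁‖ :=
        eventually_nhdsWithin_of_eventually_nhds (eventually_lt_nhds (norm_pos_iff.2 h2))
      filter_upwards [e0, e1, e2, e3, e4, self_mem_nhdsWithin] with ε a0 a1 a2 a3 a4 a5
      exact main ε a5 a0 a1 a2 z hz a3.le a4.le
    have h4 : Tendsto (fun ε : ℝ => (C₁ + C₂) / ε₀ ^ (M + 1) * ε) (𝓝[>] 0) (𝓝 0) := by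
      have : Tendsto (fun ε : ℝ => (C₁ + C₂) / ε₀ ^ (M + 1) * ε) (𝓝 0)
          (𝓝 ((C₁ + C₂) / ε₀ ^ (M + 1) * 0)) := tendsto_id.const_mul _
      rw [mul_zero] at this
      exact this.mono_left nhdsWithin_le_nhds
    have h5 : ‖W z‖ ≤ 0 := ge_of_tendsto h4 h3
    have h6 : W z = 0 := norm_le_zero_iff.1 h5
    have h7 : ((z i - w₀) * (z j - s₁)) ^ (M + 1) ≠ 0 := pow_ne_zero _ (mul_ne_zero h1 h2)
    exact (div_eq_zero_iff.1 h6).resolve_right h7
  have hX : ∀ (l : Fin 2) (a : ℂ), (MvPolynomial.X l - MvPolynomial.C a : MvPolynomial (Fin 2) ℂ) ≠ 0 := by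
    intro l a h
    have h1 := congrArg (MvPolynomial.eval fun _ => a + 1) h
    simp at h1
  refine ⟨Q.leadingCoeff * P * ((MvPolynomial.X 0 - MvPolynomial.C w₀) *
    (MvPolynomial.X 1 - MvPolynomial.C s₁)), mul_ne_zero (mul_ne_zero hq0 hP0)
    (mul_ne_zero (hX _ _) (hX _ _)), fun z hz => ?_⟩
  rw [map_mul, map_mul, map_mul, map_sub, map_sub, MvPolynomial.eval_X, MvPolynomial.eval_X,
    MvPolynomial.eval_C, MvPolynomial.eval_C]
  have e1 : (![z i, z j] : Fin 2 → ℂ) 0 = z i := rfl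
  have e2 : (![z i, z j] : Fin 2 → ℂ) 1 = z j := rfl
  rw [e1, e2]
  by_cases h1 : z i - w₀ = 0
  · rw [h1]; ring
  by_cases h2 : z j - s₁ = 0
  · rw [h2]; ring
  rw [hvan z hz h1 h2, zero_mul]

end Pool.Agent.J4H25.K1
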